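import Pool.Agent.PVD.StmtsG

/-!
# Squad PVD, row FLT: two special cases of SHR
-/

set_option autoImplicit false

open MeasureTheory Metric Set Filter Topology

namespace PVD.H48

open PV PV3

theorem sw_compact {n : ℕ} (w : E n) {S : Set (E n)} (hS : IsCompact S) (t : ℝ) :
    IsCompact (Sw w S t) := by
  have h1 : IsCompact (S ×ˢ Icc (0 : ℝ) t) := hS.prod isCompact_Icc
  have h2 : Sw w S t = (fun p : E n × ℝ => p.1 + p.2 • w) '' (S ×ˢ Icc (0 : ℝ) t) := by
    ext y
    constructor
    · rintro ⟨x, hx, s, hs, rfl⟩
      exact ⟨(x, s), ⟨hx, hs⟩, rfl⟩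
    · rintro ⟨⟨x, s⟩, ⟨hx, hs⟩, rfl⟩
      exact ⟨x, hx, s, hs, rfl⟩
  rw [h2]
  exact h1.image (by fun_prop)

theorem one_int {n : ℕ} (A : Set (E n)) : ∫ _y in A, (1 : ℝ) = vl A := by
  rw [setIntegral_const, smul_eq_mul, mul_one]
  rfl

theorem flt (shr : SHRStmt) (har : PV3.ARStmt) : FLTStmt := by
  intro n u w a S hu hw huw hS ha
  have hww : inner ℝ w w = (1 : ℝ) := by
    rw [real_inner_self_eq_norm_sq, hw, one_pow]
  have hvl : vl (Sw w S 1) = ar w S := by
    have h1 := (har n w hw).2.1 S hS a ha w (by rw [hww]; norm_num) 1 zero_le_one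
    rw [hww, one_mul, one_mul] at h1
    exact h1
  refine ⟨?_, ?_⟩
  · have h1 := shr n u w a S hu hw huw hS ha (fun _ => (1 : ℝ)) continuous_const
    rw [one_int, one_int, hvl] at h1
    exact h1
  · rintro ⟨b, hb⟩ v huv
    have hp : ∀ z : E n, inner ℝ (proj u z) v = inner ℝ z v := by
      intro z
      rw [proj, inner_sub_left, real_inner_smul_left, huv, mul_zero, sub_zero]
    have h1 := shr n u w a S hu hw huw hS ha (fun z => inner ℝ z v) (by fun_prop)
    simp only [hp] at h1
    rw [h1]
    congr 1
    have hc := sw_compact w hS 1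
    have hid : IntegrableOn (fun y : E n => y) (Sw w S 1) :=
      continuous_id.continuousOn.integrableOn_compact hc
    have hin : ∀ q : E n, ∫ y in Sw w S 1, inner ℝ y q = b * inner ℝ w q := by
      intro q
      have h2 : ∫ y in Sw w S 1, inner ℝ q y = inner ℝ q (∫ y in Sw w S 1, y) :=
        integral_inner hid q
      rw [hb, real_inner_smul_right, real_inner_comm] at h2
      rw [← h2]
      exact integral_congr_ae (Filter.Eventually.of_forall fun y => real_inner_comm _ _)
    have hiv : ∀ q : E n, IntegrableOn (fun y : E n => inner ℝ y q) (Sw w S 1) := fun q =>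
      (show Continuous fun y : E n => inner ℝ y q by fun_prop).continuousOn.integrableOn_compact hc
    have h3 : ∀ y : E n, inner ℝ (y - (inner ℝ y w - a) • w) v =
        (inner ℝ y v - inner ℝ w v * inner ℝ y w) + a * inner ℝ w v := by
      intro y
      rw [inner_sub_left, real_inner_smul_left]
      ring
    simp only [h3]
    rw [integral_add, integral_sub, integral_const_mul, hin, hin, hww, setIntegral_const,
      smul_eq_mul]
    · have h4 : volume.real (Sw w S 1) = ar w S := hvl
      rw [h4]
      ring
    · exact hiv v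
    · exact (hiv w).const_mul _
    · exact (hiv v).sub ((hiv w).const_mul _)
    · exact integrableOn_const (hs := hc.measure_lt_top.ne)

end PVD.H48
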